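import Mathlib

namespace Pool.Agent.Results.MP_c09033_al.Counter

open Topology Filter Set Pointwise

universe u

/-- Semitopological homomorphisms; the ambient group lives in universe `u`. -/
def Semitop {G H : Type} [Group G] [TopologicalSpace G] [Group H] [TopologicalSpace H]
    (f : G →* H) : Prop :=
  Continuous f ∧ Function.Surjective f ∧
    ∃ (G' : Type u) (_ : Group G') (_ : TopologicalSpace G') (_ : IsTopologicalGroup G')
      (i : G →* G') (f' : G' →* H), IsEmbedding i ∧ i.range.Normal ∧ Continuous f' ∧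
        IsOpenMap f' ∧ f'.comp i = f

@[ext] structure Hs {C : Type} [AddCommGroup C] (β : ℚ →+ C) (t : ℕ) where
  a : ℤ
  b : ℚ
  c : C

section
variable {C : Type} [AddCommGroup C] {β : ℚ →+ C} {t : ℕ}

instance : Mul (Hs β t) := ⟨fun x y => ⟨x.a + y.a, x.b + y.b, x.c + y.c + β (x.a * y.b)⟩⟩
instance : One (Hs β t) := ⟨⟨0, 0, 0⟩⟩
instance : Inv (Hs β t) := ⟨fun x => ⟨-x.a, -x.b, -x.c + β (x.a * x.b)⟩⟩

@[simp] lemma mul_a (x y : Hs β t) : (x * y).a = x.a + y.a := rfl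
@[simp] lemma mul_b (x y : Hs β t) : (x * y).b = x.b + y.b := rfl
@[simp] lemma mul_c (x y : Hs β t) : (x * y).c = x.c + y.c + β (x.a * y.b) := rfl
@[simp] lemma one_a : (1 : Hs β t).a = 0 := rfl
@[simp] lemma one_b : (1 : Hs β t).b = 0 := rfl
@[simp] lemma one_c : (1 : Hs β t).c = 0 := rfl
@[simp] lemma inv_a (x : Hs β t) : x⁻¹.a = -x.a := rfl
@[simp] lemma inv_b (x : Hs β t) : x⁻¹.b = -x.b := rfl
@[simp] lemma inv_c (x : Hs β t) : x⁻¹.c = -x.c + β (x.a * x.b) := rfl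

instance : Group (Hs β t) := Group.ofLeftAxioms
  (fun x y z => by
    ext
    · simp [add_assoc]
    · simp [add_assoc]
    · simp [add_mul, mul_add]; abel)
  (fun x => by ext <;> simp)
  (fun x => by ext <;> simp)

def V (β : ℚ →+ C) (t m : ℕ) : Subgroup (Hs β t) where
  carrier := {x | x.b = 0 ∧ (m : ℤ) ∣ x.a}
  mul_mem' := fun hx hy => ⟨by simp [hx.1, hy.1], dvd_add hx.2 hy.2⟩
  one_mem' := ⟨rfl, dvd_zero _⟩
  inv_mem' := fun hx => ⟨by simp [hx.1], hx.2.neg_right⟩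

end

/-- Group filter basis from a decreasing-by-divisibility family of subgroups. -/
@[reducible] def gfb {G : Type} [Group G] (W : ℕ → Subgroup G) (h1 : ∀ m n, W (m * n) ≤ W m)
    (h2 : ∀ g m, 0 < m → ∃ n, 0 < n ∧ ∀ x ∈ W n, g * x * g⁻¹ ∈ W m) : GroupFilterBasis G where
  sets := {s | ∃ m, 0 < m ∧ s = W m}
  nonempty := ⟨_, 1, one_pos, rfl⟩
  inter_sets := by
    rintro _ _ ⟨m, hm, rfl⟩ ⟨n, hn, rfl⟩
    exact ⟨_, ⟨m * n, by positivity, rfl⟩, subset_inter (h1 m n) (mul_comm n m ▸ h1 n m)⟩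
  one' := by rintro _ ⟨m, -, rfl⟩; exact (W m).one_mem
  mul' := by
    rintro _ ⟨m, hm, rfl⟩
    exact ⟨_, ⟨m, hm, rfl⟩, by rintro _ ⟨x, hx, y, hy, rfl⟩; exact (W m).mul_mem hx hy⟩
  inv' := by rintro _ ⟨m, hm, rfl⟩; exact ⟨_, ⟨m, hm, rfl⟩, fun x hx => (W m).inv_mem hx⟩
  conj' := by
    rintro g _ ⟨m, hm, rfl⟩
    obtain ⟨n, hn, h⟩ := h2 g m hm
    exact ⟨_, ⟨n, hn, rfl⟩, h⟩

lemma gfb_nhds {G : Type} [Group G] (W : ℕ → Subgroup G) (h1) (h2) :
    (@nhds G (gfb W h1 h2).topology 1).HasBasis (fun m => 0 < m) (fun m => W m) :=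
  (gfb W h1 h2).nhds_one_hasBasis.to_hasBasis
    (by rintro _ ⟨m, hm, rfl⟩; exact ⟨m, hm, subset_rfl⟩)
    (fun m hm => ⟨_, ⟨m, hm, rfl⟩, subset_rfl⟩)

abbrev T := AddCircle (1 : ℚ)
def q : ℚ →+ T := QuotientAddGroup.mk' _
abbrev G := Hs (AddMonoidHom.id ℚ) 0
abbrev K := Hs q 0
abbrev H := Hs q 1

instance : TopologicalSpace G := ⊥
instance : DiscreteTopology G := ⟨rfl⟩
instance : TopologicalSpace K := ⊥
instance : DiscreteTopology K := ⟨rfl⟩

lemma V1 (t m n : ℕ) : V q t (m * n) ≤ V q t m := fun _ hx =>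
  ⟨hx.1, (Int.natCast_dvd_natCast.2 (dvd_mul_right m n)).trans hx.2⟩

lemma V2 (g : H) (m : ℕ) (hm : 0 < m) : ∃ n, 0 < n ∧ ∀ x ∈ V q 1 n, g * x * g⁻¹ ∈ V q 1 m :=
  ⟨m, hm, fun x hx => ⟨by simp [hx.1], by simpa using hx.2⟩⟩

instance : TopologicalSpace H := (gfb (V q 1) (V1 1) V2).topology
instance : IsTopologicalGroup H := (gfb (V q 1) (V1 1) V2).isTopologicalGroup

def f1 : G →* K where
  toFun x := ⟨x.a, x.b, q x.c⟩
  map_one' := by ext <;> simp
  map_mul' x y := by ext <;> simp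

def f2 : K →* H where
  toFun x := ⟨x.a, x.b, x.c⟩
  map_one' := rfl
  map_mul' _ _ := rfl

lemma f2_bij : Function.Bijective f2 :=
  ⟨fun x y h => Hs.ext (congrArg Hs.a h :) (congrArg Hs.b h :) (congrArg Hs.c h :),
    fun x => ⟨⟨x.a, x.b, x.c⟩, rfl⟩⟩

lemma f1_surj : Function.Surjective f1 := by
  rintro ⟨a, b, c⟩
  obtain ⟨c, rfl⟩ := QuotientAddGroup.mk_surjective c
  exact ⟨⟨a, b, c⟩, rfl⟩

lemma q_int (z : ℤ) : q z = 0 := by
  simp only [q, QuotientAddGroup.mk'_apply, QuotientAddGroup.eq_zero_iff]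
  exact ⟨z, by simp⟩

lemma cent (g x : K) (hx : x ∈ V q 0 g.b.den) : g * x * g⁻¹ = x := by
  obtain ⟨h1, k, hk⟩ := hx
  rw [mul_inv_eq_iff_eq_mul]
  have : q (x.a * g.b) = 0 := by
    rw [← q_int (k * g.b.num), hk]
    congr 1
    push_cast
    rw [mul_right_comm, Rat.den_mul_eq_num]; ring
  ext
  · simp [add_comm]
  · simp [add_comm]
  · simp [h1, this, add_comm]

def KK := K × K
instance : Group KK := inferInstanceAs (Group (K × K))

def dg : K →* KK := (MonoidHom.id K).prod (MonoidHom.id K)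

def W (m : ℕ) : Subgroup KK := (V q 0 m).map dg

lemma W1 (m n : ℕ) : W (m * n) ≤ W m := Subgroup.map_mono (V1 0 m n)

lemma W2 (g : KK) (m : ℕ) (hm : 0 < m) : ∃ n, 0 < n ∧ ∀ x ∈ W n, g * x * g⁻¹ ∈ W m := by
  refine ⟨m * (g.1.b.den * g.2.b.den), by positivity, ?_⟩
  rintro _ ⟨x, hx, rfl⟩
  refine ⟨x, V1 0 _ _ hx, Prod.ext (cent g.1 x ?_).symm (cent g.2 x ?_).symm⟩
  · exact V1 0 _ (m * g.2.b.den) (by rwa [← mul_left_comm])
  · exact V1 0 _ (m * g.1.b.den) (by rwa [mul_comm, mul_assoc])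

instance : TopologicalSpace KK := (gfb W W1 W2).topology
instance : IsTopologicalGroup KK := (gfb W W1 W2).isTopologicalGroup

lemma f2_semi : Semitop.{0} f2 := by
  let i : K →* KK := MonoidHom.inl K K
  let p : KK →* H := f2.comp (MonoidHom.fst K K)
  have hW := gfb_nhds W W1 W2
  have hV := gfb_nhds (V q 1) (V1 1) V2
  refine ⟨continuous_of_discreteTopology, f2_bij.2, KK, inferInstance, inferInstance,
    inferInstance, i, p, ⟨?_, fun x y h => congrArg Prod.fst h⟩, ?_, ?_, ?_, rfl⟩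
  · rw [IsTopologicalGroup.isInducing_iff_nhds_one, nhds_discrete]
    apply le_antisymm
    · rw [← map_le_iff_le_comap, map_pure, map_one]; exact pure_le_nhds _
    · rw [le_pure_iff]
      refine ⟨_, hW.mem_of_mem one_pos, ?_⟩
      rintro x ⟨y, -, hy⟩
      exact (congrArg Prod.fst hy).symm.trans (congrArg Prod.snd hy)
  · refine ⟨?_⟩
    rintro _ ⟨x, rfl⟩ g
    exact ⟨g.1 * x * g.1⁻¹, Prod.ext rfl (by
      show (1 : K) = g.2 * 1 * g.2⁻¹
      simp)⟩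
  · apply continuous_of_continuousAt_one
    rw [ContinuousAt, map_one, hW.tendsto_iff hV]
    exact fun m hm => ⟨m, hm, by rintro _ ⟨x, hx, rfl⟩; exact hx⟩
  · rw [IsTopologicalGroup.isOpenMap_iff_nhds_one, hV.le_basis_iff (hW.map p)]
    exact fun m hm => ⟨m, hm, fun x hx => ⟨dg ⟨x.a, x.b, x.c⟩, ⟨_, hx, rfl⟩, rfl⟩⟩

lemma pw (g : G) (n : ℕ) : (g ^ n).a = n * g.a ∧ (g ^ n).b = n * g.b ∧
    (g.a = 0 → (g ^ n).c = n * g.c) := by
  induction n with
  | zero => simp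
  | succ n ih =>
    rw [pow_succ]
    refine ⟨by simp [ih.1, add_mul], by simp [ih.2.1, add_mul], fun h => ?_⟩
    simp [ih.1, ih.2.2 h, h, add_mul]

lemma root (g g' : G) (n : ℕ) (hn : 0 < n) (h0 : g.a = 0) (h : g' ^ n = g ^ n) : g' = g := by
  have hn' : (n : ℚ) ≠ 0 := by positivity
  have ha : g'.a = 0 := by
    have := (pw g' n).1
    rw [h, (pw g n).1, h0] at this
    simpa [hn.ne'] using this
  ext
  · rw [ha, h0]
  · have := (pw g' n).2.1
    rw [h, (pw g n).2.1] at this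
    exact (mul_left_cancel₀ hn' this).symm
  · have := (pw g' n).2.2 ha
    rw [h, (pw g n).2.2 h0] at this
    exact (mul_left_cancel₀ hn' this).symm

lemma not_semi : ¬ Semitop.{u} (f2.comp f1) := by
  rintro ⟨-, -, G', _, _, _, i, f, hi, hN, -, ho, hf⟩
  let y : G := ⟨0, 1, 0⟩
  obtain ⟨O, hO, hOi⟩ := hi.isInducing.isOpen_iff.1 (isOpen_discrete ({y} : Set G))
  have hU : IsOpen {w : G' | w * i y * w⁻¹ ∈ O} := hO.preimage (by fun_prop)
  have h1 : (1 : G') ∈ {w : G' | w * i y * w⁻¹ ∈ O} := by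
    have : y ∈ i ⁻¹' O := by rw [hOi]; rfl
    simpa using this
  have h2 := (ho _ hU).mem_nhds ⟨1, h1, map_one f⟩
  obtain ⟨m, hm, hsub⟩ := (gfb_nhds (V q 1) (V1 1) V2).mem_iff.1 h2
  obtain ⟨w, hw, hfw⟩ := hsub (show (⟨m, 0, 0⟩ : H) ∈ V q 1 m from ⟨rfl, dvd_rfl⟩)
  let g : G := ⟨0, 1 / (2 * m), 0⟩
  have hg : g ^ (2 * m) = y := by
    ext
    · rw [(pw g _).1]; simp [g, y]
    · rw [(pw g _).2.1]; simp only [g, y]; field_simp; push_cast; ring
    · rw [(pw g _).2.2 rfl]; simp [g, y]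
  obtain ⟨y', hy'⟩ := hN.conj_mem _ ⟨y, rfl⟩ w
  obtain ⟨g', hg'⟩ := hN.conj_mem _ ⟨g, rfl⟩ w
  have e1 : y' = y := by
    have : y' ∈ i ⁻¹' O := by simpa [hy'] using hw
    rwa [hOi] at this
  have e2 : g' = g := by
    refine root g g' (2 * m) (by omega) rfl (hi.injective ?_)
    rw [map_pow, hg', conj_pow, ← map_pow, hg, ← hy', e1]
  have e3 := congrArg f hg'
  rw [e2, map_mul, map_mul, map_inv, hfw, ← MonoidHom.comp_apply, hf] at e3
  have e4 := congrArg Hs.c e3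
  have hm' : (m : ℚ) ≠ 0 := by positivity
  have e5 : (m : ℚ) * ((m : ℚ)⁻¹ * 2⁻¹) = 2⁻¹ := by field_simp
  simp [f1, f2, g, e5] at e4
  simp only [q, QuotientAddGroup.mk'_apply] at e4
  obtain ⟨z, hz⟩ := (QuotientAddGroup.eq_zero_iff _).1 e4.symm
  have : (2 * z : ℚ) = 1 := by
    simp only [zsmul_eq_mul, mul_one] at hz
    rw [hz]; norm_num
  have : 2 * z = 1 := by exact_mod_cast this
  omega

theorem result : ∃ (G K H : Type) (_ : Group G) (_ : Group K) (_ : Group H)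
    (_ : TopologicalSpace G) (_ : TopologicalSpace K) (_ : TopologicalSpace H)
    (f₁ : G →* K) (f₂ : K →* H),
    IsTopologicalGroup G ∧ IsTopologicalGroup K ∧ IsTopologicalGroup H ∧
      Continuous f₁ ∧ Function.Surjective f₁ ∧ IsOpenMap f₁ ∧ Function.Bijective f₂ ∧
        Semitop.{0} f₂ ∧ ¬ Semitop.{u} (f₂.comp f₁) :=
  ⟨G, K, H, _, _, _, _, _, _, f1, f2, inferInstance, inferInstance, inferInstance,
    continuous_of_discreteTopology, f1_surj, fun _ _ => isOpen_discrete _, f2_bij, f2_semi,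
    not_semi⟩

end Pool.Agent.Results.MP_c09033_al.Counter
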